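import Mathlib

/-!
# Full and reduced `L^p` crossed products by finite groups have the same norm

Let `G` be a finite group acting by isometric automorphisms on a Banach algebra `A` and
`1 ≤ p < ∞`. For every `a : G → A` the full norm (supremum over all nondegenerate contractive
covariant representations on `L^p` spaces of σ-finite measures) and the reduced norm (supremum over
the regular covariant representations only) agree. In particular the canonical map
`F^p (G, A, α) → F^p_r (G, A, α)` is isometric.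

Idea: if `(v, π)` is a covariant representation on `E`, then `ζ ↦ (v_h⁻¹ ζ)_{h ∈ G}` is, up to the
factor `|G| ^ (1/p)`, an isometric embedding of `E` into `ℓ^p (G, E)` intertwining `(v, π)` with the
regular covariant representation associated with `π`.
-/

set_option autoImplicit false

open MeasureTheory
open scoped ENNReal

namespace Pool.Agent.Results.MP_579095_an.FullEqReduced

/-- `E` is an `L^p` space: it is isometrically isomorphic to the complex space `L^p (X, μ)` of some
σ-finite measure space `(X, μ)`. -/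
def IsLpSpace (p : ℝ≥0∞) [Fact (1 ≤ p)] (E : Type) [NormedAddCommGroup E] [NormedSpace ℂ E] :
    Prop :=
  ∃ (X : Type) (_ : MeasurableSpace X) (μ : Measure X), SigmaFinite μ ∧
    Nonempty (E ≃ₗᵢ[ℂ] Lp ℂ p μ)

/-- the bounded operators on `E` -/
abbrev Op (E : Type) [NormedAddCommGroup E] [NormedSpace ℂ E] : Type := E →L[ℂ] E

/-- the invertible linear isometries of `E` -/
abbrev Iso (E : Type) [NormedAddCommGroup E] [NormedSpace ℂ E] : Type := E ≃ₗᵢ[ℂ] E

/-- the space `ℓ^p (G, E)` -/
abbrev ellP (p : ℝ≥0∞) (G E : Type) : Type := PiLp p (fun _ : G => E)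

section

variable {A : Type} [NonUnitalNormedRing A] [NormedSpace ℂ A]
variable {G : Type} [Group G] [Fintype G]
variable {E : Type} [NormedAddCommGroup E] [NormedSpace ℂ E]

/-- the value of a bounded operator at a vector -/
def ap (T : Op E) (ξ : E) : E := T ξ

/-- the value of an isometry at a vector -/
def iap (u : Iso E) (ξ : E) : E := u ξ

/-- the product `T u` of a bounded operator and an isometry -/
noncomputable def opMul (T : Op E) (u : Iso E) : Op E :=
  T.comp (u.toContinuousLinearEquiv : E →L[ℂ] E)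

/-- the operator norm, as an element of `[0, ∞]` -/
noncomputable def opNorm (T : Op E) : ℝ≥0∞ := ‖T‖ₑ

/-- `g ↦ α g` is an action of `G` on the complex normed algebra `A` by isometric automorphisms. -/
structure IsIsometricAction (α : G → A → A) : Prop where
  one : ∀ a, α 1 a = a
  comp : ∀ g h a, α (g * h) a = α g (α h a)
  add : ∀ g a b, α g (a + b) = α g a + α g b
  smul : ∀ g (c : ℂ) a, α g (c • a) = c • α g a
  mul : ∀ g a b, α g (a * b) = α g a * α g b
  isometric : ∀ g a, ‖α g a‖ = ‖a‖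

/-- `π` is a contractive nondegenerate representation of `A` on `E`: an algebra homomorphism with
`‖π(a)‖ ≤ ‖a‖` such that the span of `π(A) E` is dense in `E`. -/
structure IsRep (π : A → Op E) : Prop where
  add : ∀ a b ξ, ap (π (a + b)) ξ = ap (π a) ξ + ap (π b) ξ
  smul : ∀ (c : ℂ) a ξ, ap (π (c • a)) ξ = c • ap (π a) ξ
  mul : ∀ a b ξ, ap (π (a * b)) ξ = ap (π a) (ap (π b) ξ)
  contractive : ∀ a ξ, ‖ap (π a) ξ‖ ≤ ‖a‖ * ‖ξ‖
  nondegenerate : Dense (Submodule.span ℂ {y : E | ∃ a ξ, y = ap (π a) ξ} : Set E)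

/-- `(v, π)` is a nondegenerate contractive covariant representation of `(G, A, α)` on `E`: `π` is
a contractive nondegenerate representation, `v` is a homomorphism to the group of invertible linear
isometries of `E` and `v_g π(a) = π(α_g(a)) v_g`. -/
structure IsCovariant (α : G → A → A) (v : G → Iso E) (π : A → Op E) : Prop where
  rep : IsRep π
  one : ∀ ξ, iap (v 1) ξ = ξ
  comp : ∀ g h ξ, iap (v (g * h)) ξ = iap (v g) (iap (v h) ξ)
  covariant : ∀ g a ξ, iap (v g) (ap (π a) ξ) = ap (π (α g a)) (iap (v g) ξ)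

/-- The integrated form `(v ⋉ π)(a) = ∑_g π(a(g)) v_g`, `a ∈ C(G, A, α)`. -/
noncomputable def integrated (v : G → Iso E) (π : A → Op E) (a : G → A) : Op E :=
  ∑ g, opMul (π (a g)) (v g)

/-- The translations of the regular covariant representation on `ℓ^p (G, E)`:
`(v_g ξ)(h) = ξ(g⁻¹ h)`. -/
noncomputable def regShift (p : ℝ≥0∞) [Fact (1 ≤ p)] (g : G) : Iso (ellP p G E) :=
  LinearIsometryEquiv.piLpCongrLeft p ℂ E (Equiv.mulLeft g)

omit [Fintype G] in
/-- the linear map underlying `diagOp` -/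
def diagLin (p : ℝ≥0∞) (T : G → Op E) : ellP p G E →ₗ[ℂ] ellP p G E where
  toFun ξ := WithLp.toLp p fun h => ap (T h) (ξ h)
  map_add' ξ η := by ext h; exact map_add (T h) _ _
  map_smul' c ξ := by ext h; exact map_smul (T h) _ _

/-- The bounded operator `(ξ(h))_h ↦ (T_h ξ(h))_h` on `ℓ^p (G, E)`. -/
def diagOp (p : ℝ≥0∞) [Fact (1 ≤ p)] (T : G → Op E) : Op (ellP p G E) where
  toLinearMap := diagLin p T
  cont := by
    show Continuous fun ξ : PiLp p (fun _ : G => E) => WithLp.toLp p fun h => T h (ξ h)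
    refine (PiLp.continuous_toLp p _).comp (continuous_pi fun h => (T h).continuous.comp ?_)
    exact PiLp.continuous_apply p _ h

/-- The representation of `A` of the regular covariant representation on `ℓ^p (G, E)` associated
with `π₀`: `(π(a) ξ)(h) = π₀(α_{h⁻¹}(a)) ξ(h)`. -/
def regRep (p : ℝ≥0∞) [Fact (1 ≤ p)] (α : G → A → A) (π₀ : A → Op E) (a : A) : Op (ellP p G E) :=
  diagOp p fun h => π₀ (α h⁻¹ a)

/-- The norm of `F^p (G, A, α)`: the supremum of `‖(v ⋉ π)(a)‖` over all nondegenerate contractive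
covariant representations `(v, π)` on `L^p` spaces. -/
noncomputable def fullNorm (p : ℝ≥0∞) [Fact (1 ≤ p)] (α : G → A → A) (a : G → A) : ℝ≥0∞ :=
  ⨆ (E : Type) (_ : NormedAddCommGroup E) (_ : NormedSpace ℂ E) (_ : IsLpSpace p E)
    (v : G → Iso E) (π : A → Op E) (_ : IsCovariant α v π), opNorm (integrated v π a)

/-- The norm of `F^p_r (G, A, α)`: the supremum of `‖(v ⋉ π)(a)‖` over the regular covariant
representations `(v, π)` associated with the nondegenerate contractive representations of `A` on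
`L^p` spaces. -/
noncomputable def redNorm (p : ℝ≥0∞) [Fact (1 ≤ p)] (α : G → A → A) (a : G → A) : ℝ≥0∞ :=
  ⨆ (E : Type) (_ : NormedAddCommGroup E) (_ : NormedSpace ℂ E) (_ : IsLpSpace p E)
    (π₀ : A → Op E) (_ : IsRep π₀), opNorm (integrated (regShift p) (regRep p α π₀) a)

lemma regShift_apply (p : ℝ≥0∞) [Fact (1 ≤ p)] (g : G) (ξ : ellP p G E) (h : G) :
    iap (regShift p g) ξ h = ξ (g⁻¹ * h) := rfl

lemma regRep_apply (p : ℝ≥0∞) [Fact (1 ≤ p)] (α : G → A → A)
    (π₀ : A → Op E) (a : A) (ξ : ellP p G E) (h : G) :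
    ap (regRep p α π₀ a) ξ h = ap (π₀ (α h⁻¹ a)) (ξ h) := rfl

/-- The map `ζ ↦ (v_{h⁻¹} ζ)_h`. -/
noncomputable def orb (p : ℝ≥0∞) [Fact (1 ≤ p)] (v : G → Iso E) (ζ : E) :
    ellP p G E := WithLp.toLp p fun h => iap (v h⁻¹) ζ

omit [Fintype G] in
lemma orb_apply (p : ℝ≥0∞) [Fact (1 ≤ p)] (v : G → Iso E) (ζ : E) (h : G) :
    orb p v ζ h = iap (v h⁻¹) ζ := rfl

lemma norm_orb (p : ℝ≥0∞) [Fact (1 ≤ p)] (hp : p ≠ ∞) (v : G → Iso E) (ζ : E) :
    ‖orb p v ζ‖ = (Fintype.card G : ℝ) ^ (1 / p.toReal) * ‖ζ‖ := by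
  have h1 : (1 : ℝ≥0∞) ≤ p := Fact.out
  have hp0 : 0 < p.toReal := ENNReal.toReal_pos (by positivity) hp
  rw [PiLp.norm_eq_sum hp0]
  have : ∀ h, ‖(orb p v ζ).ofLp h‖ = ‖ζ‖ := fun h => (v h⁻¹).norm_map ζ
  simp only [this, Finset.sum_const, Finset.card_univ, nsmul_eq_mul]
  rw [Real.mul_rpow (by positivity) (by positivity), ← Real.rpow_mul (norm_nonneg _),
    mul_one_div_cancel hp0.ne', Real.rpow_one]

omit [Group G] in
lemma integrated_apply (v : G → Iso E) (π : A → Op E) (a : G → A) (ζ : E) :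
    integrated v π a ζ = ∑ g, ap (π (a g)) (iap (v g) ζ) := by
  unfold integrated
  rw [ContinuousLinearMap.sum_apply]
  rfl

lemma integrated_orb (p : ℝ≥0∞) [Fact (1 ≤ p)] {α : G → A → A}
    (hα : IsIsometricAction α)
    {v : G → Iso E} {π : A → Op E} (hv : IsCovariant α v π) (a : G → A)
    (ζ : E) :
    integrated (regShift p) (regRep p α π) a (orb p v ζ) = orb p v (integrated v π a ζ) := by
  ext h
  rw [orb_apply, integrated_apply, integrated_apply]
  have h0 : iap (v h⁻¹) (∑ g, ap (π (a g)) (iap (v g) ζ)) =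
      ∑ g, iap (v h⁻¹) (ap (π (a g)) (iap (v g) ζ)) := map_sum (v h⁻¹) _ _
  rw [h0, WithLp.ofLp_sum, Finset.sum_apply]
  refine Finset.sum_congr rfl fun g _ => ?_
  rw [regRep_apply, regShift_apply, orb_apply, hv.covariant, ← hv.comp, mul_inv_rev, inv_inv]

lemma isCovariant_reg (p : ℝ≥0∞) [Fact (1 ≤ p)] (hp : p ≠ ∞) {α : G → A → A}
    (hα : IsIsometricAction α) {π₀ : A → Op E} (h0 : IsRep π₀) :
    IsCovariant α (fun g => regShift (E := E) p g) (regRep p α π₀) := by
  classical
  have h1 : (1 : ℝ≥0∞) ≤ p := Fact.out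
  have hp0 : 0 < p.toReal := ENNReal.toReal_pos (by positivity) hp
  refine ⟨⟨fun a b ξ => ?_, fun c a ξ => ?_, fun a b ξ => ?_, fun a ξ => ?_, ?_⟩, fun ξ => ?_,
    fun g k ξ => ?_, fun g a ξ => ?_⟩
  · ext h
    rw [regRep_apply, hα.add, h0.add]
    rfl
  · ext h
    rw [regRep_apply, hα.smul, h0.smul]
    rfl
  · ext h
    rw [regRep_apply, hα.mul, h0.mul]
    rfl
  · rw [PiLp.norm_eq_sum hp0, PiLp.norm_eq_sum hp0]
    have hle : ∀ h : G, ‖(ap (regRep p α π₀ a) ξ).ofLp h‖ ^ p.toReal ≤
        ‖a‖ ^ p.toReal * ‖ξ.ofLp h‖ ^ p.toReal := by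
      intro h
      rw [← Real.mul_rpow (norm_nonneg _) (norm_nonneg _)]
      refine Real.rpow_le_rpow (norm_nonneg _) ?_ hp0.le
      calc ‖(ap (regRep p α π₀ a) ξ).ofLp h‖ = ‖ap (π₀ (α h⁻¹ a)) (ξ h)‖ := rfl
        _ ≤ ‖α h⁻¹ a‖ * ‖ξ h‖ := h0.contractive _ _
        _ = ‖a‖ * ‖ξ h‖ := by rw [hα.isometric]
    calc (∑ h, ‖(ap (regRep p α π₀ a) ξ).ofLp h‖ ^ p.toReal) ^ (1 / p.toReal)
        ≤ (∑ h, ‖a‖ ^ p.toReal * ‖ξ.ofLp h‖ ^ p.toReal) ^ (1 / p.toReal) := by
          refine Real.rpow_le_rpow (Finset.sum_nonneg fun h _ => by positivity)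
            (Finset.sum_le_sum fun h _ => hle h) (by positivity)
      _ = ‖a‖ * (∑ h, ‖ξ.ofLp h‖ ^ p.toReal) ^ (1 / p.toReal) := by
          rw [← Finset.mul_sum, Real.mul_rpow (by positivity)
            (Finset.sum_nonneg fun h _ => by positivity), ← Real.rpow_mul (norm_nonneg _),
            mul_one_div_cancel hp0.ne', Real.rpow_one]
  · -- nondegeneracy
    set S : Submodule ℂ (ellP p G E) :=
      (Submodule.span ℂ {y : ellP p G E | ∃ a ξ, y = ap (regRep p α π₀ a) ξ}) with hS
    set T : Submodule ℂ E := Submodule.span ℂ {y : E | ∃ a ξ, y = ap (π₀ a) ξ} with hT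
    -- the embedding of the `h`-th coordinate
    have key : ∀ (h : G) (x : E), (PiLp.single p h x : PiLp p (fun _ : G => E)) ∈
        S.topologicalClosure := by
      intro h x
      have hcont : Continuous fun x : E => (PiLp.single p h x : PiLp p (fun _ : G => E)) := by
        refine (PiLp.continuous_toLp p _).comp ?_
        refine continuous_pi fun k => ?_
        by_cases hk : k = h
        · subst hk
          simpa using continuous_id'
        · simpa [Pi.single_eq_of_ne hk] using continuous_const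
      have hTS : ∀ y ∈ T, (PiLp.single p h y : PiLp p (fun _ : G => E)) ∈ S := by
        intro y hy
        induction hy using Submodule.span_induction with
        | mem y hy =>
          obtain ⟨a, ξ, rfl⟩ := hy
          refine Submodule.subset_span ⟨α h a, PiLp.single p h ξ, ?_⟩
          ext k
          rw [regRep_apply]
          by_cases hk : k = h
          · subst hk
            rw [PiLp.single_eq_same, PiLp.single_eq_same, ← hα.comp, inv_mul_cancel, hα.one]
          · rw [PiLp.single_eq_of_ne p hk, PiLp.single_eq_of_ne p hk]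
            exact (map_zero (π₀ (α k⁻¹ (α h a)))).symm
        | zero =>
          rw [(PiLp.single_eq_zero_iff p h).2 rfl]; exact S.zero_mem
        | add x y _ _ hx hy => rw [PiLp.single_add]; exact S.add_mem hx hy
        | smul c x _ hx =>
          have : (PiLp.single p h (c • x) : PiLp p (fun _ : G => E)) = c • PiLp.single p h x := by
            rw [← PiLp.toLp_single, ← PiLp.toLp_single, Pi.single_smul, WithLp.toLp_smul]
          rw [this]; exact S.smul_mem c hx
      have hx : x ∈ closure (T : Set E) := h0.nondegenerate x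
      exact map_mem_closure hcont hx hTS
    have : S.topologicalClosure = ⊤ := by
      rw [eq_top_iff]
      rintro ξ -
      have hξ : ξ = ∑ h, (PiLp.single p h (ξ h) : PiLp p (fun _ : G => E)) := by
        ext k
        simp
      rw [hξ]
      exact Submodule.sum_mem _ fun h _ => key h _
    exact Submodule.dense_iff_topologicalClosure_eq_top.2 this
  · ext h
    rw [regShift_apply, inv_one, one_mul]
  · ext h
    rw [regShift_apply, regShift_apply, regShift_apply, mul_inv_rev, mul_assoc]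
  · ext h
    rw [regShift_apply, regRep_apply, regRep_apply, regShift_apply, ← hα.comp, mul_inv_rev,
      inv_inv]

end

section Lp

variable {p : ℝ≥0∞} [Fact (1 ≤ p)] {X : Type} [MeasurableSpace X] {μ : Measure X}
variable {G : Type} [Fintype G] [MeasurableSpace G] [MeasurableSingletonClass G]

variable (G) in
/-- the measure on `G × X` which is `μ` on every slice -/
noncomputable def sumMeas (μ : Measure X) : Measure (G × X) :=
  Measure.sum fun h : G => μ.map (Prod.mk h)

instance sumMeas_sigmaFinite [SigmaFinite μ] : SigmaFinite (sumMeas G μ) := by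
  have : ∀ h : G, SigmaFinite (μ.map (Prod.mk h)) := fun h =>
    (measurableEmbedding_prodMk_left h).sigmaFinite_map
  unfold sumMeas
  infer_instance

omit [Fintype G] in
lemma ae_sumMeas [Countable G] {P : G × X → Prop} :
    (∀ᵐ z ∂(sumMeas G μ), P z) ↔ ∀ h : G, ∀ᵐ x ∂μ, P (h, x) := by
  unfold sumMeas
  rw [Measure.ae_sum_iff]
  exact forall_congr' fun h => (measurableEmbedding_prodMk_left h).ae_map_iff

lemma lintegral_sumMeas (f : G × X → ℝ≥0∞) :
    ∫⁻ z, f z ∂(sumMeas G μ) = ∑ h : G, ∫⁻ x, f (h, x) ∂μ := by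
  unfold sumMeas
  rw [lintegral_sum_measure, tsum_fintype]
  exact Finset.sum_congr rfl fun h _ => (measurableEmbedding_prodMk_left h).lintegral_map _

lemma aesm_sumMeas {f : G × X → ℂ} :
    AEStronglyMeasurable f (sumMeas G μ) ↔ ∀ h : G, AEStronglyMeasurable (fun x => f (h, x)) μ := by
  unfold sumMeas
  rw [aestronglyMeasurable_sum_measure_iff]
  exact forall_congr' fun h => (measurableEmbedding_prodMk_left h).aestronglyMeasurable_map_iff

lemma eLpNorm_sumMeas (hp : p ≠ ∞) (f : G × X → ℂ) :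
    eLpNorm f p (sumMeas G μ) =
      (∑ h : G, (eLpNorm (fun x => f (h, x)) p μ) ^ p.toReal) ^ (1 / p.toReal) := by
  have h1 : (1 : ℝ≥0∞) ≤ p := Fact.out
  have hp1 : p ≠ 0 := by rintro rfl; simp at h1
  have hp0 : 0 < p.toReal := ENNReal.toReal_pos hp1 hp
  rw [eLpNorm_eq_lintegral_rpow_enorm_toReal hp1 hp, lintegral_sumMeas]
  congr 1
  refine Finset.sum_congr rfl fun h _ => ?_
  rw [eLpNorm_eq_lintegral_rpow_enorm_toReal hp1 hp, ← ENNReal.rpow_mul,
    one_div_mul_cancel hp0.ne', ENNReal.rpow_one]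

lemma memLp_sumMeas (hp : p ≠ ∞) {f : G × X → ℂ} :
    MemLp f p (sumMeas G μ) ↔ ∀ h : G, MemLp (fun x => f (h, x)) p μ := by
  have h1 : (1 : ℝ≥0∞) ≤ p := Fact.out
  have hp1 : p ≠ 0 := by rintro rfl; simp at h1
  have hp0 : 0 < p.toReal := ENNReal.toReal_pos hp1 hp
  unfold MemLp
  rw [aesm_sumMeas, eLpNorm_sumMeas hp, forall_and]
  refine and_congr_right fun _ => ?_
  rw [ENNReal.rpow_lt_top_iff_of_pos (by positivity), ENNReal.sum_lt_top]
  simp only [Finset.mem_univ, true_implies, ENNReal.rpow_lt_top_iff_of_pos hp0]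

/-- the isometry `ℓ^p (G, L^p (X)) → L^p (G × X)` -/
noncomputable def glue (hp : p ≠ ∞) :
    PiLp p (fun _ : G => Lp ℂ p μ) →ₗᵢ[ℂ] Lp ℂ p (sumMeas G μ) where
  toFun F := MemLp.toLp (fun z : G × X => (F z.1 : X → ℂ) z.2)
    ((memLp_sumMeas hp).2 fun h => Lp.memLp (F h))
  map_add' F F' := by
    rw [← MemLp.toLp_add]
    apply MemLp.toLp_congr
    rw [Filter.EventuallyEq, ae_sumMeas]
    intro h
    filter_upwards [Lp.coeFn_add (F h) (F' h)] with x hx
    exact hx
  map_smul' c F := by
    rw [RingHom.id_apply, ← MemLp.toLp_const_smul]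
    apply MemLp.toLp_congr
    rw [Filter.EventuallyEq, ae_sumMeas]
    intro h
    filter_upwards [Lp.coeFn_smul c (F h)] with x hx
    exact hx
  norm_map' F := by
    have h1 : (1 : ℝ≥0∞) ≤ p := Fact.out
    have hp1 : p ≠ 0 := by rintro rfl; simp at h1
    have hp0 : 0 < p.toReal := ENNReal.toReal_pos hp1 hp
    simp only [LinearMap.coe_mk, AddHom.coe_mk]
    rw [Lp.norm_toLp, eLpNorm_sumMeas hp, PiLp.norm_eq_sum hp0, ← ENNReal.toReal_rpow]
    congr 1
    rw [ENNReal.toReal_sum]
    · refine Finset.sum_congr rfl fun h _ => ?_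
      rw [← ENNReal.toReal_rpow, Lp.norm_def]
    · intro h _
      exact ENNReal.rpow_ne_top_of_nonneg hp0.le (Lp.eLpNorm_ne_top (F h))

lemma glue_surj (hp : p ≠ ∞) :
    Function.Surjective (glue (μ := μ) (G := G) hp) := by
  intro f
  have hf : ∀ h : G, MemLp (fun x => (f : G × X → ℂ) (h, x)) p μ :=
    (memLp_sumMeas hp).1 (Lp.memLp f)
  let F : PiLp p (fun _ : G => Lp ℂ p μ) := WithLp.toLp p fun h => (hf h).toLp _
  refine ⟨F, ?_⟩
  apply Lp.ext
  have h1 : (glue hp F : G × X → ℂ) =ᵐ[sumMeas G μ] fun z => (F z.1 : X → ℂ) z.2 :=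
    MemLp.coeFn_toLp ((memLp_sumMeas hp).2 fun h => Lp.memLp (F h))
  refine h1.trans ?_
  rw [Filter.EventuallyEq, ae_sumMeas]
  intro h
  exact (hf h).coeFn_toLp

end Lp

lemma isLpSpace_pi {p : ℝ≥0∞} [Fact (1 ≤ p)] (hp : p ≠ ∞) {G : Type} [Fintype G] {E : Type}
    [NormedAddCommGroup E] [NormedSpace ℂ E] (hE : IsLpSpace p E) :
    IsLpSpace p (ellP p G E) := by
  obtain ⟨X, mX, μ, hμ, ⟨e⟩⟩ := hE
  let _ : MeasurableSpace G := ⊤
  have _ : MeasurableSingletonClass G := ⟨fun _ => trivial⟩
  exact ⟨G × X, inferInstance, sumMeas G μ, inferInstance,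
    ⟨(LinearIsometryEquiv.piLpCongrRight p fun _ : G => e).trans
      (LinearIsometryEquiv.ofSurjective (glue hp) (glue_surj hp))⟩⟩

/-- **Full and reduced norms agree for finite groups.** Let `1 ≤ p < ∞`, let the finite group `G`
act by isometric automorphisms `α_g` on the normed algebra `A`, and let `a ∈ C(G, A, α)`. Then the
norm of `a` in the full crossed product `F^p (G, A, α)` and its norm in the reduced crossed product
`F^p_r (G, A, α)` are equal. -/
theorem result (p : ℝ≥0∞) [Fact (1 ≤ p)] (hp : p ≠ ∞)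
    (A : Type) [NonUnitalNormedRing A] [NormedSpace ℂ A]
    (G : Type) [Group G] [Fintype G] (α : G → A → A) (hα : IsIsometricAction α)
    (a : G → A) : fullNorm p α a = redNorm p α a := by
  apply le_antisymm
  · unfold fullNorm
    refine iSup_le fun E => iSup_le fun _ => iSup_le fun _ => iSup_le fun hE => iSup_le fun v =>
      iSup_le fun π => iSup_le fun hv => ?_
    have h1 : opNorm (integrated (fun g => regShift (E := E) p g) (regRep p α π) a) ≤
        redNorm p α a := by
      unfold redNorm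
      exact le_iSup_of_le E <| le_iSup_of_le _ <| le_iSup_of_le _ <| le_iSup_of_le hE <|
        le_iSup_of_le π <| le_iSup_of_le hv.rep le_rfl
    refine le_trans ?_ h1
    unfold opNorm
    rw [enorm_le_iff_norm_le]
    refine ContinuousLinearMap.opNorm_le_bound _ (norm_nonneg _) fun ζ => ?_
    have h2 := ContinuousLinearMap.le_opNorm
      (integrated (fun g => regShift (E := E) p g) (regRep p α π) a) (orb p v ζ)
    rw [integrated_orb p hα hv, norm_orb p hp, norm_orb p hp, mul_left_comm] at h2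
    have hc : (0 : ℝ) < (Fintype.card G : ℝ) ^ (1 / p.toReal) := by
      have : 0 < Fintype.card G := Fintype.card_pos
      positivity
    exact le_of_mul_le_mul_left h2 hc
  · unfold redNorm
    refine iSup_le fun E => iSup_le fun _ => iSup_le fun _ => iSup_le fun hE => iSup_le fun π =>
      iSup_le fun hπ => ?_
    unfold fullNorm
    exact le_iSup_of_le (ellP p G E) <| le_iSup_of_le _ <| le_iSup_of_le _ <|
      le_iSup_of_le (isLpSpace_pi hp hE) <| le_iSup_of_le (fun g => regShift (E := E) p g) <|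
      le_iSup_of_le (regRep p α π) <| le_iSup_of_le (isCovariant_reg p hp hα hπ) le_rfl

end Pool.Agent.Results.MP_579095_an.FullEqReduced
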